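import Mathlib

set_option autoImplicit false

/-!
In a nilpotent group generated by two elements `u`, `a`, every element of the commutator
subgroup has the form `⁅u, h₁⁆ * ⁅a, h₂⁆`.
-/

namespace Pool.Agent.helper78.PP

open Subgroup
open scoped commutatorElement

universe v

theorem comm_mul_right' {G : Type*} [Group G] (u y y' : G) :
    ⁅u, y * y'⁆ = ⁅u, y⁆ * (y * ⁅u, y'⁆ * y⁻¹) := by
  simp only [commutatorElement_def]; group

theorem comm_inv_swap {G : Type*} [Group G] (u y : G) : ⁅u, y⁆⁻¹ = ⁅y, u⁆ := by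
  simp only [commutatorElement_def]; group

section
variable {G : Type*} [Group G] (u a : G) (c : ℕ)
  (hc : (⊤ : Subgroup G).lowerCentralSeries (c + 2) = ⊥)

include hc in
theorem central_of_last {x : G} (hx : x ∈ (⊤ : Subgroup G).lowerCentralSeries (c + 1)) (g : G) :
    g * x = x * g := by
  have h : ⁅x, g⁆ ∈ (⊤ : Subgroup G).lowerCentralSeries (c + 2) :=
    commutator_mem_commutator hx (mem_top g)
  rw [hc, mem_bot, commutatorElement_def] at h
  have h2 : x * g = g * x := by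
    have := congrArg (fun t => t * g * x) h
    simpa [mul_assoc] using this
  exact h2.symm

/-- the set of products `⁅u, y₁⁆ * ⁅a, y₂⁆` with `y₁, y₂` in the last but one term -/
def lastSub : Subgroup G where
  carrier := {z | ∃ y₁ ∈ (⊤ : Subgroup G).lowerCentralSeries c,
    ∃ y₂ ∈ (⊤ : Subgroup G).lowerCentralSeries c, z = ⁅u, y₁⁆ * ⁅a, y₂⁆}
  one_mem' := ⟨1, one_mem _, 1, one_mem _, by simp⟩
  mul_mem' := by
    rintro z z' ⟨y₁, h₁, y₂, h₂, rfl⟩ ⟨y₁', h₁', y₂', h₂', rfl⟩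
    have m : ∀ (x y : G), y ∈ (⊤ : Subgroup G).lowerCentralSeries c →
        ⁅x, y⁆ ∈ (⊤ : Subgroup G).lowerCentralSeries (c + 1) := by
      intro x y hy
      rw [← comm_inv_swap]
      exact inv_mem (commutator_mem_commutator hy (mem_top x))
    have e : ∀ (x y y' : G), y' ∈ (⊤ : Subgroup G).lowerCentralSeries c →
        ⁅x, y * y'⁆ = ⁅x, y⁆ * ⁅x, y'⁆ := by
      intro x y y' hy'
      rw [comm_mul_right', central_of_last c hc (m x y' hy') y]
      group
    refine ⟨y₁ * y₁', mul_mem h₁ h₁', y₂ * y₂', mul_mem h₂ h₂', ?_⟩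
    rw [e u y₁ y₁' h₁', e a y₂ y₂' h₂']
    have := central_of_last c hc (m u y₁' h₁') (⁅a, y₂⁆)
    calc ⁅u, y₁⁆ * ⁅a, y₂⁆ * (⁅u, y₁'⁆ * ⁅a, y₂'⁆)
        = ⁅u, y₁⁆ * (⁅a, y₂⁆ * ⁅u, y₁'⁆) * ⁅a, y₂'⁆ := by group
      _ = ⁅u, y₁⁆ * (⁅u, y₁'⁆ * ⁅a, y₂⁆) * ⁅a, y₂'⁆ := by rw [this]
      _ = ⁅u, y₁⁆ * ⁅u, y₁'⁆ * (⁅a, y₂⁆ * ⁅a, y₂'⁆) := by group
  inv_mem' := by
    rintro z ⟨y₁, h₁, y₂, h₂, rfl⟩
    have m : ∀ (x y : G), y ∈ (⊤ : Subgroup G).lowerCentralSeries c →
        ⁅x, y⁆ ∈ (⊤ : Subgroup G).lowerCentralSeries (c + 1) := by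
      intro x y hy
      rw [← comm_inv_swap]
      exact inv_mem (commutator_mem_commutator hy (mem_top x))
    have e : ∀ (x y : G), y ∈ (⊤ : Subgroup G).lowerCentralSeries c →
        ⁅x, y⁆⁻¹ = ⁅x, y⁻¹⁆ := by
      intro x y hy
      have h1 : ⁅x, y * y⁻¹⁆ = ⁅x, y⁆ * ⁅x, y⁻¹⁆ := by
        rw [comm_mul_right', central_of_last c hc (m x _ (inv_mem hy)) y]
        group
      rw [mul_inv_cancel, commutatorElement_one_right] at h1
      exact (eq_inv_of_mul_eq_one_right h1.symm).symm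
    refine ⟨y₁⁻¹, inv_mem h₁, y₂⁻¹, inv_mem h₂, ?_⟩
    rw [← e u y₁ h₁, ← e a y₂ h₂, mul_inv_rev]
    have := central_of_last c hc (inv_mem (m u y₁ h₁)) (⁅a, y₂⁆⁻¹)
    exact this

include hc in
theorem last_term (hcl : closure {u, a} = ⊤) (z : G)
    (hz : z ∈ (⊤ : Subgroup G).lowerCentralSeries (c + 1)) :
    ∃ y₁ ∈ (⊤ : Subgroup G).lowerCentralSeries c,
      ∃ y₂ ∈ (⊤ : Subgroup G).lowerCentralSeries c, z = ⁅u, y₁⁆ * ⁅a, y₂⁆ := by
  have m : ∀ (x y : G), y ∈ (⊤ : Subgroup G).lowerCentralSeries c →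
      ⁅x, y⁆ ∈ (⊤ : Subgroup G).lowerCentralSeries (c + 1) := by
    intro x y hy
    rw [← comm_inv_swap]
    exact inv_mem (commutator_mem_commutator hy (mem_top x))
  suffices hT : (⊤ : Subgroup G).lowerCentralSeries (c + 1) ≤ lastSub u a c hc by
    exact hT hz
  -- the set of good `g`
  have key : ∀ g : G, ∀ y ∈ (⊤ : Subgroup G).lowerCentralSeries c,
      ⁅g, y⁆ ∈ lastSub u a c hc := by
    intro g
    have hg : g ∈ closure ({u, a} : Set G) := by rw [hcl]; exact mem_top g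
    induction hg using closure_induction with
    | mem x hx =>
      intro y hy
      rcases hx with rfl | hx
      · exact ⟨y, hy, 1, one_mem _, by simp⟩
      · rw [Set.mem_singleton_iff] at hx
        subst hx
        exact ⟨1, one_mem _, y, hy, by simp⟩
    | one => intro y _; rw [commutatorElement_one_left]; exact one_mem _
    | mul x x' _ _ ihx ihx' =>
      intro y hy
      have : ⁅x * x', y⁆ = ⁅x, y⁆ * ⁅x', y⁆ := by
        have h1 : ⁅x * x', y⁆ = (x * ⁅x', y⁆ * x⁻¹) * ⁅x, y⁆ := by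
          simp only [commutatorElement_def]; group
        rw [h1, central_of_last c hc (m x' y hy) x, mul_assoc _ x x⁻¹, mul_inv_cancel, mul_one]
        exact (central_of_last c hc (m x' y hy) _).symm
      rw [this]
      exact mul_mem (ihx y hy) (ihx' y hy)
    | inv x _ ihx =>
      intro y hy
      have : ⁅x⁻¹, y⁆ = ⁅x, y⁆⁻¹ := by
        have h1 : ⁅x⁻¹, y⁆ = x⁻¹ * ⁅x, y⁆⁻¹ * x := by
          simp only [commutatorElement_def]; group
        rw [h1, central_of_last c hc (inv_mem (m x y hy)) x⁻¹]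
        group
      rw [this]
      exact inv_mem (ihx y hy)
  rw [Subgroup.lowerCentralSeries_succ, commutator_le]
  intro y hy g _
  rw [← comm_inv_swap]
  exact inv_mem (key g y hy)

end

/-- the main lemma, by induction on the class -/
theorem comm_prod_aux (c : ℕ) : ∀ (G : Type v) [Group G] (u a : G), closure {u, a} = ⊤ →
    (⊤ : Subgroup G).lowerCentralSeries (c + 1) = ⊥ →
    ∀ z ∈ _root_.commutator G, ∃ h₁ h₂ : G, z = ⁅u, h₁⁆ * ⁅a, h₂⁆ := by
  induction c with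
  | zero =>
    intro G _ u a _ hc z hz
    rw [zero_add, top_lowerCentralSeries_one] at hc
    rw [hc, mem_bot] at hz
    exact ⟨1, 1, by simp [hz]⟩
  | succ c ih =>
    intro G _ u a hcl hc z hz
    set Z := (⊤ : Subgroup G).lowerCentralSeries (c + 1) with hZ
    have : Z.Normal := by rw [hZ]; infer_instance
    have hsurj : Function.Surjective (QuotientGroup.mk' Z) := QuotientGroup.mk'_surjective Z
    have hmap : ∀ n, ((⊤ : Subgroup G).lowerCentralSeries n).map (QuotientGroup.mk' Z)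
        = (⊤ : Subgroup (G ⧸ Z)).lowerCentralSeries n := by
      intro n
      rw [map_lowerCentralSeries, ← MonoidHom.range_eq_map, MonoidHom.range_eq_top.2 hsurj]
    have h1 : (⊤ : Subgroup (G ⧸ Z)).lowerCentralSeries (c + 1) = ⊥ := by
      rw [← hmap, ← hZ, QuotientGroup.map_mk'_self]
    have h2 : closure {(QuotientGroup.mk' Z) u, (QuotientGroup.mk' Z) a} = ⊤ := by
      have := MonoidHom.map_closure (QuotientGroup.mk' Z) {u, a}
      rw [hcl, Set.image_pair, ← MonoidHom.range_eq_map, MonoidHom.range_eq_top.2 hsurj] at this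
      exact this.symm
    have h3 : (QuotientGroup.mk' Z) z ∈ _root_.commutator (G ⧸ Z) := by
      rw [← top_lowerCentralSeries_one, ← hmap]
      exact mem_map_of_mem _ (by rw [top_lowerCentralSeries_one]; exact hz)
    obtain ⟨k₁, k₂, hk⟩ := ih (G ⧸ Z) _ _ h2 h1 _ h3
    obtain ⟨h₁, rfl⟩ := hsurj k₁
    obtain ⟨h₂, rfl⟩ := hsurj k₂
    have hw : (⁅u, h₁⁆ * ⁅a, h₂⁆)⁻¹ * z ∈ Z := by
      rw [← QuotientGroup.eq_one_iff, ← QuotientGroup.mk'_apply, map_mul, map_inv, map_mul,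
        map_commutatorElement, map_commutatorElement, hk, inv_mul_cancel]
    obtain ⟨y₁, hy₁, y₂, hy₂, hy⟩ := last_term u a c hc hcl _ hw
    have m : ∀ (x y : G), y ∈ (⊤ : Subgroup G).lowerCentralSeries c →
        ⁅x, y⁆ ∈ (⊤ : Subgroup G).lowerCentralSeries (c + 1) := by
      intro x y hy
      rw [← comm_inv_swap]
      exact inv_mem (commutator_mem_commutator hy (mem_top x))
    refine ⟨h₁ * y₁, h₂ * y₂, ?_⟩
    rw [comm_mul_right', comm_mul_right', central_of_last c hc (m u y₁ hy₁) h₁,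
      central_of_last c hc (m a y₂ hy₂) h₂]
    have hz2 : z = ⁅u, h₁⁆ * ⁅a, h₂⁆ * (⁅u, y₁⁆ * ⁅a, y₂⁆) := by
      rw [← hy]; group
    have h4 := central_of_last c hc (m u y₁ hy₁) (⁅a, h₂⁆)
    calc z = ⁅u, h₁⁆ * ⁅a, h₂⁆ * (⁅u, y₁⁆ * ⁅a, y₂⁆) := hz2
      _ = ⁅u, h₁⁆ * (⁅a, h₂⁆ * ⁅u, y₁⁆) * ⁅a, y₂⁆ := by group
      _ = ⁅u, h₁⁆ * (⁅u, y₁⁆ * ⁅a, h₂⁆) * ⁅a, y₂⁆ := by rw [h4]
      _ = _ := by group

/-- In a nilpotent group generated by `u` and `a`, every element of the commutator subgroup is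
of the form `⁅u, h₁⁆ * ⁅a, h₂⁆`. -/
theorem comm_prod {G : Type v} [Group G] [Group.IsNilpotent G] (u a : G)
    (hcl : closure {u, a} = ⊤) (z : G) (hz : z ∈ _root_.commutator G) :
    ∃ h₁ h₂ : G, z = ⁅u, h₁⁆ * ⁅a, h₂⁆ := by
  obtain ⟨n, hn⟩ := Subgroup.nilpotent_iff_lowerCentralSeries.1 (inferInstance : Group.IsNilpotent G)
  refine comm_prod_aux n G u a hcl ?_ z hz
  rw [eq_bot_iff, ← hn]
  exact Subgroup.lowerCentralSeries_antitone _ (Nat.le_succ n)

end Pool.Agent.helper78.PP
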