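import Mathlib
import Pool.Agent.helper78.PP.Nilp

set_option autoImplicit false

/-!
The group of compatible families in the inverse system of the quotients of `p`-power index of a
group `F`: square roots (for odd `p`), evaluations, and closedness of two-term commutator
products.
-/

namespace Pool.Agent.helper78.PP

open Subgroup
open scoped commutatorElement

universe v

/-- normal subgroups of `p`-power index -/
abbrev Idx (p : ℕ) (F : Type v) [Group F] :=
  {N : Subgroup F // N.Normal ∧ ∃ k : ℕ, N.index = p ^ k}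

/-- compatible families -/
abbrev IsLim (p : ℕ) (F : Type v) [Group F]
    (H : Subgroup ((N : Idx p F) → F ⧸ N.1.normalCore)) : Prop :=
  ∀ x, x ∈ H ↔ ∀ N M : Idx p F, N.1 ≤ M.1 → ∀ g : F,
    x N = (QuotientGroup.mk g : F ⧸ N.1.normalCore) →
    x M = (QuotientGroup.mk g : F ⧸ M.1.normalCore)

section finite_p
variable {p : ℕ} (hp : p.Prime) (hp2 : p ≠ 2)

include hp hp2 in
/-- The statement for finite `p`-groups, `p` odd. -/
theorem fin_comm {Q : Type v} [Group Q] {k : ℕ} (hQ : Nat.card Q = p ^ k) (u a n : Q)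
    (hn : n * n = (u * u * u)⁻¹ * (a⁻¹ * u * a)) :
    ∃ h₁ h₂ : Q, n * u = ⁅u, h₁⁆ * ⁅a, h₂⁆ := by
  have : Fact p.Prime := ⟨hp⟩
  have hodd : Odd (p ^ k) := (hp.odd_of_ne_two hp2).pow
  obtain ⟨m, hm⟩ := hodd
  have hfin : Finite Q := Nat.finite_of_card_ne_zero (by rw [hQ]; exact pow_ne_zero _ hp.ne_zero)
  set S : Subgroup Q := closure {u, a} with hS
  have huS : u ∈ S := subset_closure (by simp)
  have haS : a ∈ S := subset_closure (by simp)
  have hnS : n ∈ S := by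
    have h1 : n = (n * n) ^ (m + 1) := by
      have h2 : n ^ (2 * m + 1) = 1 := by rw [← hm, ← hQ]; exact pow_card_eq_one'
      calc n = n ^ (2 * m + 1) * n := by rw [h2, one_mul]
        _ = n ^ (2 * (m + 1)) := by rw [← pow_succ]; ring_nf
        _ = (n * n) ^ (m + 1) := by rw [pow_mul, pow_two]
    rw [h1, hn]
    refine pow_mem (mul_mem (inv_mem (mul_mem (mul_mem huS huS) huS)) ?_) _
    exact mul_mem (mul_mem (inv_mem haS) huS) haS
  have hpS : IsPGroup p S := by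
    have : IsPGroup p Q := IsPGroup.of_card hQ
    exact this.to_subgroup S
  have hnil : Group.IsNilpotent S := hpS.isNilpotent
  have hcl : closure {(⟨u, huS⟩ : S), ⟨a, haS⟩} = ⊤ := by
    have h1 : (closure {(⟨u, huS⟩ : S), ⟨a, haS⟩}).map S.subtype = (⊤ : Subgroup S).map S.subtype := by
      rw [MonoidHom.map_closure, Set.image_pair, ← MonoidHom.range_eq_map, range_subtype]
      rfl
    exact map_injective (subtype_injective S) h1
  have hcomm : (⟨n, hnS⟩ * ⟨u, huS⟩ : S) ∈ _root_.commutator S := by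
    rw [← Abelianization.ker_of, MonoidHom.mem_ker]
    set x : Abelianization S := Abelianization.of ⟨n, hnS⟩ with hx
    set y : Abelianization S := Abelianization.of ⟨u, huS⟩ with hy
    have h1 : x * x = (y * y * y)⁻¹ * y := by
      have h2 : (⟨n, hnS⟩ * ⟨n, hnS⟩ : S) = ((⟨u, huS⟩ * ⟨u, huS⟩ * ⟨u, huS⟩ : S))⁻¹ *
          ((⟨a, haS⟩ : S)⁻¹ * ⟨u, huS⟩ * ⟨a, haS⟩) := by
        apply Subtype.ext
        simpa using hn
      have h3 := congrArg Abelianization.of h2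
      rw [map_mul, map_mul, map_mul, map_mul, map_inv, map_inv, map_mul, map_mul] at h3
      rw [← hx, ← hy] at h3
      rw [h3]
      congr 1
      rw [mul_comm (Abelianization.of (⟨a, haS⟩ : S))⁻¹ y]
      group
    have h4 : (x * y) * (x * y) = 1 := by
      calc (x * y) * (x * y) = (x * x) * (y * y) := by
            rw [mul_mul_mul_comm]
        _ = ((y * y * y)⁻¹ * y) * (y * y) := by rw [h1]
        _ = 1 := by group
    have hpA : IsPGroup p (Abelianization S) :=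
      hpS.of_surjective Abelianization.of (QuotientGroup.mk'_surjective _)
    obtain ⟨j, hj⟩ := hpA (x * y)
    obtain ⟨i, hi⟩ : Odd (p ^ j) := (hp.odd_of_ne_two hp2).pow
    rw [map_mul, ← hx, ← hy]
    rw [hi, pow_succ, pow_mul, pow_two, h4, one_pow, one_mul] at hj
    exact hj
  obtain ⟨h₁, h₂, h⟩ := comm_prod (⟨u, huS⟩ : S) ⟨a, haS⟩ hcl _ hcomm
  refine ⟨h₁, h₂, ?_⟩
  have := congrArg (Subtype.val) h
  simpa [commutatorElement_def] using this

end finite_p

section lim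
variable {p : ℕ} {F : Type v} [Group F]

theorem card_quot (N : Idx p F) : ∃ k, Nat.card (F ⧸ N.1.normalCore) = p ^ k := by
  obtain ⟨k, hk⟩ := N.2.2
  have := N.2.1
  refine ⟨k, ?_⟩
  rw [← hk, normalCore_eq_self]; rfl

theorem finite_quot (hp : p.Prime) (N : Idx p F) : Finite (F ⧸ N.1.normalCore) := by
  obtain ⟨k, hk⟩ := card_quot N
  exact Nat.finite_of_card_ne_zero (by rw [hk]; exact pow_ne_zero _ hp.ne_zero)

theorem mk_compat {N M : Idx p F} (h : N.1 ≤ M.1) {g g' : F}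
    (hg : (QuotientGroup.mk g : F ⧸ N.1.normalCore) = QuotientGroup.mk g') :
    (QuotientGroup.mk g : F ⧸ M.1.normalCore) = QuotientGroup.mk g' := by
  rw [QuotientGroup.eq] at hg ⊢
  have hN := N.2.1
  have hM := M.2.1
  rw [normalCore_eq_self] at hg ⊢
  exact h hg

/-- intersections -/
theorem exists_inf (hp : p.Prime) (N M : Idx p F) : ∃ K : Idx p F, K.1 ≤ N.1 ∧ K.1 ≤ M.1 := by
  have hN := N.2.1
  have hM := M.2.1
  obtain ⟨k, hk⟩ := N.2.2
  obtain ⟨l, hl⟩ := M.2.2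
  have : Fact p.Prime := ⟨hp⟩
  have hne : (N.1 ⊓ M.1).index ≠ 0 :=
    index_inf_ne_zero (by rw [hk]; exact pow_ne_zero _ hp.ne_zero)
      (by rw [hl]; exact pow_ne_zero _ hp.ne_zero)
  have hfin : Finite (F ⧸ (N.1 ⊓ M.1)) := Nat.finite_of_card_ne_zero hne
  have hpg : IsPGroup p (F ⧸ (N.1 ⊓ M.1)) := by
    intro x
    obtain ⟨g, rfl⟩ := QuotientGroup.mk_surjective x
    refine ⟨k + l, ?_⟩
    rw [← QuotientGroup.mk_pow, QuotientGroup.eq_one_iff]
    refine ⟨?_, ?_⟩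
    · have : g ^ (p ^ k) ∈ N.1 := by rw [← hk]; exact pow_index_mem N.1 g
      rw [pow_add, pow_mul]
      exact pow_mem this _
    · have : g ^ (p ^ l) ∈ M.1 := by rw [← hl]; exact pow_index_mem M.1 g
      rw [pow_add, mul_comm, pow_mul]
      exact pow_mem this _
  obtain ⟨n, hn⟩ := IsPGroup.iff_card.1 hpg
  exact ⟨⟨N.1 ⊓ M.1, inferInstance, n, hn⟩, inf_le_left, inf_le_right⟩

variable {H : Subgroup ((N : Idx p F) → F ⧸ N.1.normalCore)} (hH : IsLim p F H)

include hH in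
theorem const_mem (g : F) :
    (fun N : Idx p F => (QuotientGroup.mk g : F ⧸ N.1.normalCore)) ∈ H := by
  rw [hH]
  intro N M h g' hg'
  exact mk_compat h hg'

include hH in
/-- square roots, `p` odd -/
theorem exists_sqrt (hp : p.Prime) (hp2 : p ≠ 2) (h : H) : ∃ k : H, k * k = h := by
  have hex : ∀ N : Idx p F, ∃ m, Nat.card (F ⧸ N.1.normalCore) = 2 * m + 1 := by
    intro N
    obtain ⟨k, hk⟩ := card_quot N
    obtain ⟨m, hm⟩ : Odd (p ^ k) := (hp.odd_of_ne_two hp2).pow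
    exact ⟨m, by rw [hk, hm]⟩
  choose m hm using hex
  have hpow : ∀ (N : Idx p F) (x : F ⧸ N.1.normalCore), (x ^ 2) ^ (m N + 1) = x := by
    intro N x
    have h2 : x ^ (2 * m N + 1) = 1 := by rw [← hm N]; exact pow_card_eq_one'
    calc (x ^ 2) ^ (m N + 1) = x ^ (2 * m N + 1) * x := by rw [← pow_mul, ← pow_succ]; ring_nf
      _ = x := by rw [h2, one_mul]
  refine ⟨⟨fun N => (h.1 N) ^ (m N + 1), ?_⟩, ?_⟩
  · rw [hH]
    intro N M hNM g hg
    have h1 : h.1 N = (QuotientGroup.mk (g ^ 2) : F ⧸ N.1.normalCore) := by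
      have h3 : ((h.1 N) ^ (m N + 1)) ^ 2 = (QuotientGroup.mk g : F ⧸ N.1.normalCore) ^ 2 := by
        rw [hg]
      rw [QuotientGroup.mk_pow, ← h3, ← pow_mul, mul_comm, pow_mul, hpow]
    have h2 := (hH h.1).1 h.2 N M hNM _ h1
    show (h.1 M) ^ (m M + 1) = _
    rw [h2, QuotientGroup.mk_pow, hpow]
  · apply Subtype.ext
    funext N
    show (h.1 N) ^ (m N + 1) * (h.1 N) ^ (m N + 1) = h.1 N
    rw [← pow_two, ← pow_mul, mul_comm, pow_mul, hpow]

include hH in
/-- closedness of products of two commutators with fixed first entries -/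
theorem comm_closed (hp : p.Prime) (u a y : H)
    (hy : ∀ N : Idx p F, ∃ h₁ h₂ : F ⧸ N.1.normalCore,
      y.1 N = ⁅u.1 N, h₁⁆ * ⁅a.1 N, h₂⁆) :
    ∃ h₁ h₂ : H, y = ⁅u, h₁⁆ * ⁅a, h₂⁆ := by
  have hrep : ∀ N : Idx p F, ∃ c₁ c₂ : F,
      y.1 N = ⁅u.1 N, (QuotientGroup.mk c₁ : F ⧸ N.1.normalCore)⁆ *
        ⁅a.1 N, (QuotientGroup.mk c₂ : F ⧸ N.1.normalCore)⁆ := by
    intro N
    obtain ⟨h₁, h₂, h⟩ := hy N
    obtain ⟨c₁, rfl⟩ := QuotientGroup.mk_surjective h₁
    obtain ⟨c₂, rfl⟩ := QuotientGroup.mk_surjective h₂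
    exact ⟨c₁, c₂, h⟩
  choose c₁ c₂ hc using hrep
  have : Nonempty (Idx p F) := ⟨⟨⊤, inferInstance, 0, by simp⟩⟩
  have : IsCodirectedOrder (Idx p F) := ⟨fun N M => by
    obtain ⟨K, h1, h2⟩ := exists_inf hp N M
    exact ⟨K, h1, h2⟩⟩
  let 𝒰 : Ultrafilter (Idx p F) := Ultrafilter.of Filter.atBot
  have hU : ∀ M : Idx p F, {N : Idx p F | N ≤ M} ∈ 𝒰 := fun M =>
    Ultrafilter.of_le Filter.atBot (Filter.mem_atBot M)
  have hlim : ∀ (φ : Idx p F → F) (M : Idx p F), ∃ q : F ⧸ M.1.normalCore,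
      {N : Idx p F | (QuotientGroup.mk (φ N) : F ⧸ M.1.normalCore) = q} ∈ 𝒰 := by
    intro φ M
    have := finite_quot hp M
    obtain ⟨q, hq⟩ := (𝒰.map (fun N => (QuotientGroup.mk (φ N) :
      F ⧸ M.1.normalCore))).eq_pure_of_finite
    refine ⟨q, ?_⟩
    have h1 : ({q} : Set (F ⧸ M.1.normalCore)) ∈ 𝒰.map (fun N => (QuotientGroup.mk (φ N) :
      F ⧸ M.1.normalCore)) := by rw [hq]; exact Ultrafilter.mem_pure.2 rfl
    exact h1
  choose L hL using hlim
  have hLmem : ∀ φ : Idx p F → F, (fun M => L φ M) ∈ H := by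
    intro φ
    rw [hH]
    intro N M hNM g hg
    obtain ⟨K, hK1, hK2⟩ := 𝒰.nonempty_of_mem (Filter.inter_mem (hL φ N) (hL φ M))
    have hK1' : (QuotientGroup.mk (φ K) : F ⧸ N.1.normalCore) = L φ N := hK1
    have hK2' : (QuotientGroup.mk (φ K) : F ⧸ M.1.normalCore) = L φ M := hK2
    have h1 : (QuotientGroup.mk (φ K) : F ⧸ N.1.normalCore) = QuotientGroup.mk g := by
      rw [hK1']; exact hg
    show L φ M = _
    rw [← hK2']
    exact mk_compat hNM h1
  refine ⟨⟨_, hLmem c₁⟩, ⟨_, hLmem c₂⟩, ?_⟩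
  apply Subtype.ext
  funext M
  obtain ⟨K, ⟨hK0, hK1⟩, hK2⟩ := 𝒰.nonempty_of_mem
    (Filter.inter_mem (Filter.inter_mem (hU M) (hL c₁ M)) (hL c₂ M))
  have hKM : K.1 ≤ M.1 := hK0
  have hK1' : (QuotientGroup.mk (c₁ K) : F ⧸ M.1.normalCore) = L c₁ M := hK1
  have hK2' : (QuotientGroup.mk (c₂ K) : F ⧸ M.1.normalCore) = L c₂ M := hK2
  obtain ⟨gu, hgu⟩ := QuotientGroup.mk_surjective (u.1 K)
  obtain ⟨ga, hga⟩ := QuotientGroup.mk_surjective (a.1 K)
  have h1 : y.1 K = (QuotientGroup.mk (⁅gu, c₁ K⁆ * ⁅ga, c₂ K⁆) : F ⧸ K.1.normalCore) := by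
    rw [hc K, ← hgu, ← hga]
    simp [commutatorElement_def]
  have h2 := (hH y.1).1 y.2 K M hKM _ h1
  have h3 := (hH u.1).1 u.2 K M hKM _ hgu.symm
  have h4 := (hH a.1).1 a.2 K M hKM _ hga.symm
  rw [h2]
  show _ = ⁅u.1 M, L c₁ M⁆ * ⁅a.1 M, L c₂ M⁆
  rw [h3, h4, ← hK1', ← hK2']
  simp [commutatorElement_def]

include hH in
/-- The determinant condition: for `n² = u⁻³ a⁻¹ u a`, the element `n u` is a product of two
commutators. -/
theorem nu_comm (hp : p.Prime) (hp2 : p ≠ 2) (u a n : H)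
    (hn : n * n = (u * u * u)⁻¹ * (a⁻¹ * u * a)) :
    ∃ h₁ h₂ : H, n * u = ⁅u, h₁⁆ * ⁅a, h₂⁆ := by
  refine comm_closed hH hp u a (n * u) ?_
  intro N
  obtain ⟨k, hk⟩ := card_quot N
  have h1 : n.1 N * n.1 N = (u.1 N * u.1 N * u.1 N)⁻¹ * ((a.1 N)⁻¹ * u.1 N * a.1 N) := by
    have := congrArg (fun x : H => x.1 N) hn
    simpa using this
  exact fin_comm hp hp2 hk (u.1 N) (a.1 N) (n.1 N) h1

/-- evaluation at a homomorphism to a group in which the kernel has `p`-power index -/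
theorem exists_eval {W : Type*} [Group W] (f : F →* W)
    (hf : ∃ k : ℕ, f.ker.index = p ^ k) :
    ∃ θ : H →* W, ∀ (g : F) (x : H), (∀ N : Idx p F, x.1 N = QuotientGroup.mk g) →
      θ x = f g := by
  let N : Idx p F := ⟨f.ker, inferInstance, hf⟩
  have hle : N.1.normalCore ≤ f.ker := normalCore_le _
  refine ⟨(QuotientGroup.lift N.1.normalCore f hle).comp
    ((Pi.evalMonoidHom (fun N : Idx p F => F ⧸ N.1.normalCore) N).comp H.subtype), ?_⟩
  intro g x hx
  show (QuotientGroup.lift N.1.normalCore f hle) (x.1 N) = f g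
  rw [hx N]
  rfl

end lim

end Pool.Agent.helper78.PP
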