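import Mathlib
import Pool.Agent.helper78.PP.Lim

set_option autoImplicit false

/-!
The free pro-`p` group on `d` letters, as an abstract group: compatible families in the inverse
system of the quotients of `p`-power index of the free group.
-/

namespace Pool.Agent.helper78.PP

/-- The normal subgroups of `p`-power index of the free group on `d` letters. -/
def PIndex (p d : ℕ) : Type :=
  {N : Subgroup (FreeGroup (Fin d)) // N.Normal ∧ ∃ k : ℕ, N.index = p ^ k}

/-- The subgroup belonging to an index. -/
def PIndex.sub {p d : ℕ} (N : PIndex p d) : Subgroup (FreeGroup (Fin d)) := N.1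

/-- The quotient of the free group by `N` (the normal core of the normal subgroup `N` is `N`). -/
def Quo {p d : ℕ} (N : PIndex p d) : Type := FreeGroup (Fin d) ⧸ N.sub.normalCore

instance {p d : ℕ} (N : PIndex p d) : Group (Quo N) :=
  QuotientGroup.Quotient.group N.sub.normalCore

/-- The class of a word in the quotient by `N`. -/
def Quo.mk {p d : ℕ} (N : PIndex p d) (g : FreeGroup (Fin d)) : Quo N :=
  (QuotientGroup.mk g : FreeGroup (Fin d) ⧸ N.sub.normalCore)

/-- The product of all the quotients. -/
def Family (p d : ℕ) : Type := (N : PIndex p d) → Quo N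

instance (p d : ℕ) : Group (Family p d) := Pi.group

/-- Compatible families: if `N ≤ M`, then `x N` maps to `x M`. -/
def Compatible {p d : ℕ} (x : Family p d) : Prop :=
  ∀ N M : PIndex p d, N.sub ≤ M.sub → ∀ g : FreeGroup (Fin d),
    x N = Quo.mk N g → x M = Quo.mk M g

theorem quo_compat {p d : ℕ} {N M : PIndex p d} (h : N.sub ≤ M.sub) {g g' : FreeGroup (Fin d)}
    (hg : Quo.mk N g = Quo.mk N g') : Quo.mk M g = Quo.mk M g' :=
  mk_compat (p := p) (F := FreeGroup (Fin d)) (N := N) (M := M) h hg

theorem quo_mk_mul {p d : ℕ} (N : PIndex p d) (g g' : FreeGroup (Fin d)) :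
    Quo.mk N (g * g') = Quo.mk N g * Quo.mk N g' := rfl

theorem quo_mk_inv {p d : ℕ} (N : PIndex p d) (g : FreeGroup (Fin d)) :
    Quo.mk N g⁻¹ = (Quo.mk N g)⁻¹ := rfl

theorem quo_mk_surj {p d : ℕ} (N : PIndex p d) (x : Quo N) : ∃ g, Quo.mk N g = x :=
  QuotientGroup.mk_surjective x

theorem compatible_mul {p d : ℕ} {x y : Family p d} (hx : Compatible x) (hy : Compatible y) :
    Compatible (x * y) := by
  intro N M h g hg
  obtain ⟨a, ha⟩ := quo_mk_surj N (x N)
  obtain ⟨b, hb⟩ := quo_mk_surj N (y N)
  have h1 := hx N M h a ha.symm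
  have h2 := hy N M h b hb.symm
  show x M * y M = _
  rw [h1, h2, ← quo_mk_mul]
  apply quo_compat h
  rw [← hg, quo_mk_mul, ha, hb]
  rfl

theorem compatible_one {p d : ℕ} : Compatible (1 : Family p d) := by
  intro N M h g hg
  have h1 : Quo.mk N 1 = Quo.mk N g := hg
  exact quo_compat h h1

theorem compatible_inv {p d : ℕ} {x : Family p d} (hx : Compatible x) : Compatible x⁻¹ := by
  intro N M h g hg
  have h0 : (x N)⁻¹ = Quo.mk N g := hg
  have h1 : x N = Quo.mk N g⁻¹ := by
    rw [quo_mk_inv, ← h0, inv_inv]
  show (x M)⁻¹ = _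
  rw [hx N M h _ h1, quo_mk_inv, inv_inv]

/-- The free pro-`p` group on `d` letters, as an abstract group. -/
def FreeProP (p d : ℕ) : Subgroup (Family p d) where
  carrier := {x | Compatible x}
  mul_mem' := compatible_mul
  one_mem' := compatible_one
  inv_mem' := compatible_inv

theorem freeProP_isLim (p d : ℕ) : IsLim p (FreeGroup (Fin d)) (FreeProP p d) :=
  fun _ => Iff.rfl

end Pool.Agent.helper78.PP
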