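import Mathlib

set_option autoImplicit false

/-!
The degree two argument: if `n² = u⁻³ v` with `v = a⁻¹ u a` and `det ρ(n) = det ρ(u)⁻¹`, then
`ρ ⁅⁅u² n, v u⁆, n²⁆ = 1` for every homomorphism `ρ` to `GL₂` of a commutative ring.
-/

namespace Pool.Agent.helper78.PP

open scoped commutatorElement
open Matrix

section
variable {R : Type*} [CommRing R]

theorem ch2 (A : Matrix (Fin 2) (Fin 2) R) :
    A * A = A.trace • A - A.det • (1 : Matrix (Fin 2) (Fin 2) R) := by
  ext i j
  fin_cases i <;> fin_cases j <;>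
    simp [Matrix.mul_apply, Fin.sum_univ_two, Matrix.trace_fin_two, Matrix.det_fin_two] <;> ring

theorem ch2_polar (U V : Matrix (Fin 2) (Fin 2) R) :
    U * V + V * U = U.trace • V + V.trace • U
      + ((U * V).trace - U.trace * V.trace) • (1 : Matrix (Fin 2) (Fin 2) R) := by
  ext i j
  fin_cases i <;> fin_cases j <;>
    simp [Matrix.mul_apply, Fin.sum_univ_two, Matrix.trace_fin_two] <;> ring

theorem ch2_adj (U : Matrix (Fin 2) (Fin 2) R) :
    (U.trace • (1 : Matrix (Fin 2) (Fin 2) R) - U) * U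
      = U.det • (1 : Matrix (Fin 2) (Fin 2) R) := by
  rw [sub_mul, ch2 U, smul_mul_assoc, one_mul]; abel

/-- the key linear relation -/
theorem key_rel (U V A : Matrix (Fin 2) (Fin 2) R) (htr : V.trace = U.trace)
    (hA : U * U * U * (A * A) = V) (hdet : A.det * U.det = 1) :
    (U.det * A.trace) • (U * U * A) = V * U
      + (U.trace * U.trace - (U * V).trace - U.det) • (1 : Matrix (Fin 2) (Fin 2) R) := by
  have h1 : U.det • (U * U * (A * A)) = U.trace • V - U * V := by
    have : U.det • (U * U * (A * A)) =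
        ((U.trace • (1 : Matrix (Fin 2) (Fin 2) R) - U) * U) * (U * U * (A * A)) := by
      rw [ch2_adj, smul_mul_assoc, one_mul]
    rw [this]
    have e : ((U.trace • (1 : Matrix (Fin 2) (Fin 2) R) - U) * U) * (U * U * (A * A))
        = (U.trace • (1 : Matrix (Fin 2) (Fin 2) R) - U) * (U * U * U * (A * A)) := by
      simp only [Matrix.mul_assoc]
    rw [e, hA, sub_mul, smul_mul_assoc, one_mul]
  have h2 : A.trace • A = A * A + A.det • (1 : Matrix (Fin 2) (Fin 2) R) := by
    rw [ch2 A]; abel
  have h3 : (U.det * A.trace) • (U * U * A) = U.det • (U * U * (A * A)) + U * U := by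
    rw [mul_smul, ← Matrix.mul_smul (U * U) A.trace A, h2, Matrix.mul_add, smul_add,
      Matrix.mul_smul, Matrix.mul_one, smul_smul, mul_comm U.det, hdet, one_smul]
  rw [h3, h1, ch2 U]
  have h4 := ch2_polar U V
  rw [htr] at h4
  have h5 : V * U = U.trace • V + U.trace • U
      + ((U * V).trace - U.trace * U.trace) • (1 : Matrix (Fin 2) (Fin 2) R) - U * V := by
    rw [← h4]; abel
  rw [h5]
  simp only [sub_smul]
  abel

/-- the matrix form of the conclusion -/
theorem mat_conclusion (U V A C : Matrix (Fin 2) (Fin 2) R) (htr : V.trace = U.trace)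
    (hA : U * U * U * (A * A) = V) (hdet : A.det * U.det = 1)
    (hinv : IsUnit (V * U * (U * U * A)))
    (hC : C * (V * U * (U * U * A)) = U * U * A * (V * U)) :
    C * (A * A) = (A * A) * C := by
  have hk := key_rel U V A htr hA hdet
  set κ := U.trace * U.trace - (U * V).trace - U.det with hκ
  have h1 : (U.det * A.trace) • (U * U * A * (V * U) - V * U * (U * U * A)) = 0 := by
    rw [smul_sub, ← smul_mul_assoc, ← Matrix.mul_smul (V * U), hk]
    rw [add_mul, mul_add, smul_mul_assoc, one_mul, Matrix.mul_smul, Matrix.mul_one, sub_self]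
  have h2 : A.trace • (U * U * A * (V * U) - V * U * (U * U * A)) = 0 := by
    have : A.det • (U.det * A.trace) • (U * U * A * (V * U) - V * U * (U * U * A)) = 0 := by
      rw [h1, smul_zero]
    rwa [smul_smul, ← mul_assoc, hdet, one_mul] at this
  have h3 : A.trace • (C - 1) = 0 := by
    have h4 : (A.trace • (C - 1)) * (V * U * (U * U * A)) = 0 := by
      rw [smul_mul_assoc, sub_mul, one_mul, hC]
      exact h2
    exact hinv.mul_left_eq_zero.1 h4
  have h5 : A.trace • C = A.trace • (1 : Matrix (Fin 2) (Fin 2) R) := by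
    rw [smul_sub, sub_eq_zero] at h3
    exact h3
  rw [ch2 A, mul_sub, sub_mul, Matrix.mul_smul, smul_mul_assoc, Matrix.mul_smul,
    Matrix.mul_one, smul_mul_assoc, one_mul]
  congr 1
  calc A.trace • (C * A) = (A.trace • C) * A := by rw [smul_mul_assoc]
    _ = A * (A.trace • C) := by rw [h5, smul_mul_assoc, one_mul, Matrix.mul_smul, Matrix.mul_one]
    _ = A.trace • (A * C) := by rw [Matrix.mul_smul]

end

/-- The degree two argument in a group. -/
theorem gl2_kill {G : Type*} [Group G] {R : Type*} [CommRing R]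
    (ρ : G →* GL (Fin 2) R) (u a n : G)
    (hn : n * n = (u * u * u)⁻¹ * (a⁻¹ * u * a))
    (hdet : Matrix.GeneralLinearGroup.det (ρ n) * Matrix.GeneralLinearGroup.det (ρ u) = 1) :
    ρ ⁅⁅u * u * n, (a⁻¹ * u * a) * u⁆, n * n⁆ = 1 := by
  have hcomm : ρ ⁅u * u * n, (a⁻¹ * u * a) * u⁆ * ρ (n * n)
      = ρ (n * n) * ρ ⁅u * u * n, (a⁻¹ * u * a) * u⁆ := by
    apply Units.ext
    have e : ∀ x y : G, ((ρ (x * y) : GL (Fin 2) R) : Matrix (Fin 2) (Fin 2) R)
        = (ρ x : Matrix (Fin 2) (Fin 2) R) * (ρ y : Matrix (Fin 2) (Fin 2) R) := by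
      intro x y; rw [map_mul]; rfl
    rw [Units.val_mul, Units.val_mul, e n n]
    refine mat_conclusion (ρ u : Matrix (Fin 2) (Fin 2) R)
      (ρ (a⁻¹ * u * a) : Matrix (Fin 2) (Fin 2) R) (ρ n : Matrix (Fin 2) (Fin 2) R) _ ?_ ?_ ?_ ?_ ?_
    · rw [e, e, Matrix.trace_mul_comm, ← Matrix.mul_assoc, ← e a a⁻¹, mul_inv_cancel, map_one,
        Units.val_one, one_mul]
    · rw [← e, ← e, ← e, ← e]
      congr 2
      rw [hn]; group
    · have := congrArg Units.val hdet
      simpa using this
    · rw [← e, ← e u u, ← e, ← e]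
      exact Units.isUnit _
    · rw [← e, ← e u u, ← e, ← e, ← e, ← e]
      congr 2
      simp only [commutatorElement_def]; group
  rw [map_commutatorElement, commutatorElement_eq_one_iff_mul_comm]
  exact hcomm

end Pool.Agent.helper78.PP
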