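import Mathlib

set_option autoImplicit false

/-!
A finite `p`-group in which the degree two element does not vanish: the wreath product of an
affine group over `ZMod (p ^ 5)` by the cyclic group of order `p`.
-/

namespace Pool.Agent.helper78.PP

open scoped commutatorElement

/-- the affine group of a commutative ring: `x ↦ a x + v` -/
@[ext]
structure Aff (R : Type*) [CommRing R] where
  /-- the linear part -/
  a : Rˣ
  /-- the translation part -/
  v : R

namespace Aff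
variable {R : Type*} [CommRing R]

instance : Mul (Aff R) := ⟨fun x y => ⟨x.a * y.a, x.v + x.a * y.v⟩⟩
instance : One (Aff R) := ⟨⟨1, 0⟩⟩
instance : Inv (Aff R) := ⟨fun x => ⟨x.a⁻¹, -(↑x.a⁻¹ * x.v)⟩⟩

@[simp] theorem mul_a (x y : Aff R) : (x * y).a = x.a * y.a := rfl
@[simp] theorem mul_v (x y : Aff R) : (x * y).v = x.v + x.a * y.v := rfl
@[simp] theorem one_a : (1 : Aff R).a = 1 := rfl
@[simp] theorem one_v : (1 : Aff R).v = 0 := rfl
@[simp] theorem inv_a (x : Aff R) : x⁻¹.a = x.a⁻¹ := rfl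
@[simp] theorem inv_v (x : Aff R) : x⁻¹.v = -(↑x.a⁻¹ * x.v) := rfl

instance : Group (Aff R) := Group.ofLeftAxioms
  (fun x y z => by
    ext
    · simp [mul_assoc]
    · simp only [mul_v, mul_a, Units.val_mul]; ring)
  (fun x => by ext <;> simp)
  (fun x => by
    ext
    · simp
    · simp)

instance [Finite R] : Finite (Aff R) :=
  Finite.of_injective (fun x : Aff R => (x.a, x.v)) (fun x y h => by
    ext
    · exact congrArg Units.val (Prod.ext_iff.1 h).1
    · exact (Prod.ext_iff.1 h).2)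

theorem pow_a (x : Aff R) (m : ℕ) : (x ^ m).a = x.a ^ m := by
  induction m with
  | zero => simp
  | succ m ih => rw [pow_succ, mul_a, ih, pow_succ]

theorem pow_v_of_one (x : Aff R) (hx : x.a = 1) (m : ℕ) : (x ^ m).v = m * x.v := by
  induction m with
  | zero => simp
  | succ m ih =>
    rw [pow_succ, mul_v, ih, pow_a, hx, one_pow, Units.val_one, one_mul]
    push_cast; ring

end Aff

/-- the subgroup of affine maps with linear part congruent to one modulo `p` -/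
def affSub (p : ℕ) : Subgroup (Aff (ZMod (p ^ 5))) where
  carrier := {x | (p : ZMod (p ^ 5)) ∣ (x.a : ZMod (p ^ 5)) - 1}
  one_mem' := by simp
  mul_mem' := by
    intro x y hx hy
    have : ((x * y).a : ZMod (p ^ 5)) - 1
        = x.a * ((y.a : ZMod (p ^ 5)) - 1) + ((x.a : ZMod (p ^ 5)) - 1) := by
      simp only [Aff.mul_a, Units.val_mul]; ring
    show (p : ZMod (p ^ 5)) ∣ ((x * y).a : ZMod (p ^ 5)) - 1
    rw [this]
    exact dvd_add (Dvd.dvd.mul_left hy _) hx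
  inv_mem' := by
    intro x hx
    have : ((x⁻¹).a : ZMod (p ^ 5)) - 1
        = -(((x.a⁻¹ : (ZMod (p ^ 5))ˣ) : ZMod (p ^ 5)) * ((x.a : ZMod (p ^ 5)) - 1)) := by
      rw [Aff.inv_a, mul_sub, Units.inv_mul, mul_one]; ring
    show (p : ZMod (p ^ 5)) ∣ ((x⁻¹).a : ZMod (p ^ 5)) - 1
    rw [this, dvd_neg]
    exact Dvd.dvd.mul_left hx _

theorem natCast_p5 (p : ℕ) : (p : ZMod (p ^ 5)) ^ 5 = 0 := by
  have := ZMod.natCast_self (p ^ 5)
  rwa [Nat.cast_pow] at this

theorem affSub_pow (p : ℕ) (x : Aff (ZMod (p ^ 5))) (hx : x ∈ affSub p) :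
    x ^ (p ^ 9) = 1 := by
  have h1 : (x ^ (p ^ 4)).a = 1 := by
    apply Units.ext
    rw [Aff.pow_a, Units.val_pow_eq_pow_val, Units.val_one]
    have h2 : (p : ZMod (p ^ 5)) ∣ (x.a : ZMod (p ^ 5)) - 1 := hx
    have h3 := dvd_sub_pow_of_dvd_sub h2 4
    rw [natCast_p5, zero_dvd_iff, one_pow, sub_eq_zero] at h3
    exact h3
  have h4 : x ^ (p ^ 9) = (x ^ (p ^ 4)) ^ (p ^ 5) := by rw [← pow_mul, ← pow_add]
  rw [h4]
  ext
  · rw [Aff.pow_a, h1, one_pow]; rfl
  · rw [Aff.pow_v_of_one _ h1, Nat.cast_pow, natCast_p5, zero_mul]; rfl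

/-- the computation in the affine group -/
theorem aff_test {p : ℕ} (hp : p.Prime) (hp2 : p ≠ 2) (b : (ZMod (p ^ 5))ˣ)
    (hb : (b : ZMod (p ^ 5)) = 1 + p) (n : Aff (ZMod (p ^ 5))) (hnP : n ∈ affSub p)
    (hn : n * n = ((⟨1, 1⟩ : Aff (ZMod (p ^ 5))) * ⟨1, 1⟩ * ⟨1, 1⟩)⁻¹ * ⟨b * b, 0⟩) :
    ⁅⁅(⟨1, 1⟩ : Aff (ZMod (p ^ 5))) * ⟨1, 1⟩ * n,
      (⟨b * b, 0⟩ : Aff (ZMod (p ^ 5))) * ⟨1, 1⟩⁆, n * n⁆ ≠ 1 := by
  intro hz
  set c : Aff (ZMod (p ^ 5)) := ⁅(⟨1, 1⟩ : Aff (ZMod (p ^ 5))) * ⟨1, 1⟩ * n,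
    (⟨b * b, 0⟩ : Aff (ZMod (p ^ 5))) * ⟨1, 1⟩⁆ with hc
  have hz' : c * (n * n) = (n * n) * c := commutatorElement_eq_one_iff_mul_comm.1 hz
  have hc' : c * ((⟨b * b, 0⟩ * ⟨1, 1⟩) * ((⟨1, 1⟩ : Aff (ZMod (p ^ 5))) * ⟨1, 1⟩ * n))
      = ((⟨1, 1⟩ : Aff (ZMod (p ^ 5))) * ⟨1, 1⟩ * n) * (⟨b * b, 0⟩ * ⟨1, 1⟩) := by
    rw [hc, commutatorElement_def]; group
  -- the linear part of `n`
  have hna : (n.a : ZMod (p ^ 5)) * n.a = b * b := by
    have := congrArg (fun x : Aff (ZMod (p ^ 5)) => (x.a : ZMod (p ^ 5))) hn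
    simpa using this
  have hnv : n.v + n.a * n.v = -3 := by
    have := congrArg (fun x : Aff (ZMod (p ^ 5)) => x.v) hn
    simp at this
    rw [this]; ring
  have hcast : IsUnit ((n.a : ZMod (p ^ 5)) + b) := by
    obtain ⟨t, ht⟩ : (p : ZMod (p ^ 5)) ∣ (n.a : ZMod (p ^ 5)) - 1 := hnP
    have h1 : (n.a : ZMod (p ^ 5)) + b = 2 + p * (t + 1) := by
      rw [hb]; linear_combination ht
    rw [h1]
    have h2 : IsUnit (2 : ZMod (p ^ 5)) := by
      have : IsUnit ((2 : ℕ) : ZMod (p ^ 5)) := by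
        rw [ZMod.isUnit_iff_coprime]
        exact Nat.Coprime.pow_right 5 ((Nat.coprime_primes Nat.prime_two hp).2 (Ne.symm hp2))
      simpa using this
    have h3 : IsNilpotent ((p : ZMod (p ^ 5)) * (t + 1)) :=
      ⟨5, by rw [mul_pow, natCast_p5, zero_mul]⟩
    exact h3.isUnit_add_left_of_commute h2 (Commute.all _ _)
  have hab : (n.a : ZMod (p ^ 5)) = b := by
    have h1 : ((n.a : ZMod (p ^ 5)) - b) * (n.a + b) = 0 := by linear_combination hna
    have h2 := hcast.mul_left_eq_zero.1 h1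
    exact sub_eq_zero.1 h2
  -- the parts of `c`
  have hca : c.a = 1 := by
    have := congrArg (fun x : Aff (ZMod (p ^ 5)) => x.a) hc'
    simp only [Aff.mul_a, one_mul, mul_one] at this
    have h1 : c.a * (b * b * n.a) = b * b * n.a := by rw [this]; rw [mul_comm]
    exact mul_eq_right.1 h1
  have hcv : c.v + (b * b + b * b * (2 + n.v)) = 2 + n.v + b * (b * b : ZMod (p ^ 5)) := by
    have := congrArg (fun x : Aff (ZMod (p ^ 5)) => x.v) hc'
    simp only [Aff.mul_a, Aff.mul_v, hca, Units.val_mul, Units.val_one, one_mul, mul_one,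
      zero_add, hab] at this
    linear_combination this
  have hzv : c.v = b * b * c.v := by
    have := congrArg (fun x : Aff (ZMod (p ^ 5)) => x.v) hz'
    rw [hn] at this
    simp only [Aff.mul_a, Aff.mul_v, hca, Units.val_mul, Units.val_one, one_mul, mul_one, mul_zero,
      add_zero, Aff.inv_a, Aff.inv_v, inv_one] at this
    linear_combination this
  rw [hab] at hnv
  have hfin : ((b : ZMod (p ^ 5)) - 1) ^ 4 * (1 + b) = 0 := by
    have h1 : c.v = ((b : ZMod (p ^ 5)) - 1) ^ 3 := by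
      linear_combination hcv + (1 - (b : ZMod (p ^ 5))) * hnv
    rw [h1] at hzv
    linear_combination -hzv
  rw [hb] at hfin
  have h2 : ((p ^ 4 * (2 + p) : ℕ) : ZMod (p ^ 5)) = 0 := by
    push_cast
    linear_combination hfin
  rw [ZMod.natCast_eq_zero_iff] at h2
  have h3 : p ∣ 2 + p := by
    have h4 : p ^ 4 * p ∣ p ^ 4 * (2 + p) := by rwa [← pow_succ]
    exact Nat.dvd_of_mul_dvd_mul_left (pow_pos hp.pos 4) h4
  have h5 : p ∣ 2 := (Nat.dvd_add_iff_left (dvd_refl p)).2 h3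
  exact hp2 ((Nat.prime_dvd_prime_iff_eq hp Nat.prime_two).1 h5)

/-- the test group -/
abbrev TestGroup (p : ℕ) := (affSub p) ≀ᵣ (Multiplicative (ZMod p))

theorem wr_pow_right {D Q : Type*} [Group D] [Group Q] (w : D ≀ᵣ Q) (m : ℕ) :
    (w ^ m).right = w.right ^ m := by
  induction m with
  | zero => simp
  | succ m ih => rw [pow_succ, RegularWreathProduct.mul_right, ih, pow_succ]

theorem wr_pow_left {D Q : Type*} [Group D] [Group Q] (w : D ≀ᵣ Q) (hw : w.right = 1) (m : ℕ) :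
    (w ^ m).left = w.left ^ m := by
  induction m with
  | zero => simp
  | succ m ih =>
    rw [pow_succ, RegularWreathProduct.mul_left, ih, wr_pow_right, hw, one_pow, pow_succ]
    simp

theorem testGroup_isPGroup {p : ℕ} (hp : p.Prime) : IsPGroup p (TestGroup p) := by
  have : Fact p.Prime := ⟨hp⟩
  intro w
  have h1 : (w ^ p).right = 1 := by
    rw [wr_pow_right]
    have h2 : w.right ^ Nat.card (Multiplicative (ZMod p)) = 1 := pow_card_eq_one'
    rwa [Nat.card_congr Multiplicative.toAdd, Nat.card_zmod] at h2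
  refine ⟨10, ?_⟩
  have h3 : w ^ p ^ 10 = (w ^ p) ^ p ^ 9 := by rw [← pow_mul, ← pow_succ']
  rw [h3]
  have h4 := wr_pow_left (w ^ p) h1 (p ^ 9)
  have h5 : ((w ^ p) ^ p ^ 9).right = 1 := by rw [wr_pow_right, h1, one_pow]
  ext1
  · rw [h4]
    funext x
    rw [Pi.pow_apply]
    apply Subtype.ext
    rw [Subgroup.coe_pow]
    exact affSub_pow p _ ((w ^ p).left x).2
  · exact h5

theorem finite_testGroup {p : ℕ} (hp : p.Prime) : Finite (TestGroup p) := by
  have : NeZero p := ⟨hp.ne_zero⟩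
  have : NeZero (p ^ 5) := ⟨pow_ne_zero _ hp.ne_zero⟩
  have : Finite (Multiplicative (ZMod p)) := Finite.of_equiv (ZMod p) Multiplicative.ofAdd
  infer_instance

/-- evaluation of the base coordinate at the identity, on the base group -/
def evBase {D Q : Type*} [Group D] [Group Q] :
    (RegularWreathProduct.rightHom : D ≀ᵣ Q →* Q).ker →* D where
  toFun w := w.1.left 1
  map_one' := rfl
  map_mul' w w' := by
    have h : w.1.right = 1 := w.2
    show w.1.left 1 * w'.1.left (w.1.right⁻¹ * 1) = w.1.left 1 * w'.1.left 1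
    rw [h]; simp

/-- In the test group, the element attached to suitable `X`, `σ` does not vanish. -/
theorem test_ne {p : ℕ} (hp : p.Prime) (hp2 : p ≠ 2) :
    ∃ X s : TestGroup p, ∀ n : TestGroup p, n * n = (X * X * X)⁻¹ * (s⁻¹ * X * s) →
      ⁅⁅X * X * n, (s⁻¹ * X * s) * X⁆, n * n⁆ ≠ 1 := by
  classical
  have hF : Fact p.Prime := ⟨hp⟩
  have hpn : IsNilpotent (p : ZMod (p ^ 5)) := ⟨5, natCast_p5 p⟩
  obtain ⟨b, hb⟩ : IsUnit (1 + (p : ZMod (p ^ 5))) := hpn.isUnit_one_add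
  have hu0 : (⟨1, 1⟩ : Aff (ZMod (p ^ 5))) ∈ affSub p := by
    show (p : ZMod (p ^ 5)) ∣ ((1 : (ZMod (p ^ 5))ˣ) : ZMod (p ^ 5)) - 1
    simp
  have hv0 : (⟨b * b, 0⟩ : Aff (ZMod (p ^ 5))) ∈ affSub p := by
    show (p : ZMod (p ^ 5)) ∣ ((b * b : (ZMod (p ^ 5))ˣ) : ZMod (p ^ 5)) - 1
    exact ⟨2 + p, by rw [Units.val_mul, hb]; ring⟩
  let σ : Multiplicative (ZMod p) := Multiplicative.ofAdd 1
  have hσ : σ ≠ 1 := by
    intro h
    have h1 : (1 : ZMod p) = 0 := Multiplicative.ofAdd.injective h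
    exact one_ne_zero h1
  let X : TestGroup p := ⟨fun x => if x = 1 then ⟨⟨1, 1⟩, hu0⟩ else
    if x = σ then ⟨⟨b * b, 0⟩, hv0⟩ else 1, 1⟩
  let s : TestGroup p := RegularWreathProduct.inl σ
  refine ⟨X, s, ?_⟩
  intro n hn hz
  -- everything lies in the base group
  let B := (RegularWreathProduct.rightHom : TestGroup p →* Multiplicative (ZMod p)).ker
  have hXB : X ∈ B := rfl
  have hvB : s⁻¹ * X * s ∈ B := by
    have : B.Normal := inferInstance
    have h := this.conj_mem X hXB s⁻¹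
    rwa [inv_inv] at h
  have hnB : n ∈ B := by
    have h1 : (n * n).right = 1 := by
      rw [hn]
      exact mul_mem (inv_mem (mul_mem (mul_mem hXB hXB) hXB)) hvB
    rw [RegularWreathProduct.mul_right] at h1
    have h2 : n.right ^ p = 1 := by
      have h3 : n.right ^ Nat.card (Multiplicative (ZMod p)) = 1 := pow_card_eq_one'
      rwa [Nat.card_congr Multiplicative.toAdd, Nat.card_zmod] at h3
    obtain ⟨m, hm⟩ := hp.odd_of_ne_two hp2
    have h4 : n.right ^ (2 * m + 1) = 1 := by rw [← hm]; exact h2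
    rw [pow_succ, pow_mul, pow_two, h1, one_pow, one_mul] at h4
    exact h4
  let X' : B := ⟨X, hXB⟩
  let v' : B := ⟨s⁻¹ * X * s, hvB⟩
  let n' : B := ⟨n, hnB⟩
  have hn' : n' * n' = (X' * X' * X')⁻¹ * v' := Subtype.ext hn
  have hz' : ⁅⁅X' * X' * n', v' * X'⁆, n' * n'⁆ = 1 := Subtype.ext hz
  let φ : B →* Aff (ZMod (p ^ 5)) := (affSub p).subtype.comp evBase
  have hφX : φ X' = ⟨1, 1⟩ := by
    show ((X.left 1 : affSub p) : Aff (ZMod (p ^ 5))) = _
    have : X.left 1 = ⟨⟨1, 1⟩, hu0⟩ := if_pos rfl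
    rw [this]
  have hφv : φ v' = ⟨b * b, 0⟩ := by
    show (((s⁻¹ * X * s).left 1 : affSub p) : Aff (ZMod (p ^ 5))) = _
    have h1 : (s⁻¹ * X * s).left 1 = X.left σ := by
      rw [RegularWreathProduct.mul_left, RegularWreathProduct.mul_left]
      simp [s]
    have h2 : X.left σ = ⟨⟨b * b, 0⟩, hv0⟩ := by
      show (if σ = 1 then _ else _) = _
      rw [if_neg hσ, if_pos rfl]
    rw [h1, h2]
  have hn'' : φ n' * φ n' = ((⟨1, 1⟩ : Aff (ZMod (p ^ 5))) * ⟨1, 1⟩ * ⟨1, 1⟩)⁻¹ * ⟨b * b, 0⟩ := by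
    rw [← hφX, ← hφv, ← map_mul, hn']
    simp
  have hz'' : ⁅⁅(⟨1, 1⟩ : Aff (ZMod (p ^ 5))) * ⟨1, 1⟩ * φ n',
      (⟨b * b, 0⟩ : Aff (ZMod (p ^ 5))) * ⟨1, 1⟩⁆, φ n' * φ n'⁆ = 1 := by
    rw [← hφX, ← hφv, ← map_mul, ← map_mul, ← map_mul, ← map_commutatorElement, ← map_mul,
      ← map_commutatorElement, hz', map_one]
  exact aff_test hp hp2 b hb (φ n') (evBase n').2 hn'' hz''

end Pool.Agent.helper78.PP
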