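import Mathlib
import Pool.Agent.helper78.PP.Nilp
import Pool.Agent.helper78.PP.Mat2
import Pool.Agent.helper78.PP.Lim
import Pool.Agent.helper78.PP.Test

set_option autoImplicit false

/-!
The degree two theorem, for any subgroup of the product that consists of the compatible families.
-/

namespace Pool.Agent.helper78.PP

open scoped commutatorElement

universe w

theorem main_two (p d : ℕ) (hp : p.Prime) (hp2 : p ≠ 2) (hd : 2 ≤ d)
    (H : Subgroup ((N : Idx p (FreeGroup (Fin d))) → FreeGroup (Fin d) ⧸ N.1.normalCore))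
    (hlim : IsLim p (FreeGroup (Fin d)) H) :
    ∃ z : H, z ≠ 1 ∧
      ∀ (R : Type w) [CommRing R] (f : H →* GL (Fin 2) R), f z = 1 := by
  classical
  have hF : Fact p.Prime := ⟨hp⟩
  let i0 : Fin d := ⟨0, by omega⟩
  let i1 : Fin d := ⟨1, by omega⟩
  have h01 : i1 ≠ i0 := by
    intro h
    have := congrArg Fin.val h
    simp [i0, i1] at this
  let u : H := ⟨_, const_mem hlim (FreeGroup.of i0)⟩
  let a : H := ⟨_, const_mem hlim (FreeGroup.of i1)⟩
  obtain ⟨n, hn⟩ := exists_sqrt hlim hp hp2 ((u * u * u)⁻¹ * (a⁻¹ * u * a))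
  refine ⟨⁅⁅u * u * n, (a⁻¹ * u * a) * u⁆, n * n⁆, ?_, ?_⟩
  · intro hz
    obtain ⟨X, s, hXs⟩ := test_ne hp hp2
    let f : FreeGroup (Fin d) →* TestGroup p :=
      FreeGroup.lift (fun i => if i = i0 then X else if i = i1 then s else 1)
    have hf : ∃ k : ℕ, f.ker.index = p ^ k := by
      have := finite_testGroup hp
      rw [Subgroup.index_ker]
      exact IsPGroup.iff_card.1 ((testGroup_isPGroup hp).to_subgroup f.range)
    obtain ⟨θ, hθ⟩ := exists_eval (H := H) f hf
    have hu : θ u = X := by
      rw [hθ (FreeGroup.of i0) u (fun N => rfl)]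
      simp [f]
    have ha : θ a = s := by
      rw [hθ (FreeGroup.of i1) a (fun N => rfl)]
      simp [f, h01]
    have hn' : θ n * θ n = (X * X * X)⁻¹ * (s⁻¹ * X * s) := by
      rw [← map_mul, hn]
      simp [hu, ha]
    apply hXs (θ n) hn'
    have := congrArg θ hz
    rw [map_one] at this
    rw [← this]
    simp only [map_commutatorElement, map_mul, map_inv, hu, ha]
  · intro R _ f
    refine gl2_kill f u a n hn ?_
    obtain ⟨h₁, h₂, h⟩ := nu_comm hlim hp hp2 u a n hn
    rw [← map_mul, ← map_mul, h, map_mul, map_mul, map_commutatorElement, map_commutatorElement,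
      map_commutatorElement, map_commutatorElement]
    rw [commutatorElement_eq_one_iff_mul_comm.2 (mul_comm _ _),
      commutatorElement_eq_one_iff_mul_comm.2 (mul_comm _ _), one_mul]

end Pool.Agent.helper78.PP
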